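import Mathlib
import Pool.Agent.Q277.Ram35k8
import Pool.Agent.Q277.Ram35k8Fac
import Pool.Agent.Q277.RamTwo

/-!
# Integrality of the normalised `(35k+8)` sums with ratio `81`
-/

namespace Pool.Agent.Results.MP_1a5975_nt.Integrality

open Finset Q277.Ram35k8 Q277.FacTools Q277.RamTwo

/-- the rational number `a_n` of the problem -/
def a (n : ℕ) : ℚ :=
  1 / (4 * (n : ℚ) * (2 * n + 1) * ((2 * n).choose n : ℚ)) *
    ∑ k ∈ range n, (35 * (k : ℚ) + 8) * (((4 * k).factorial : ℚ) / (k.factorial : ℚ) ^ 4) *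
      81 ^ (n - 1 - k)

theorem F_zero (j : ℕ) : F j 0
    = (35 * (j : ℚ) + 8) * (((4 * j).factorial : ℚ) / (j.factorial : ℚ) ^ 4) := by
  unfold F
  match j with
  | 0 => norm_num
  | i + 1 =>
    rw [if_neg (by omega), if_pos (by omega)]
    simp only [Nat.sub_zero, pow_zero, mul_zero, Nat.cast_zero]
    rw [show 4 * (i + 1) - 1 = 4 * i + 3 by omega, show 4 * (i + 1) = 4 * i + 3 + 1 by ring,
      f1 (4 * i + 3)]
    have a1 := fne (4 * i + 3)
    have a3 := fne (i + 1)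
    generalize ((4 * i + 3).factorial : ℚ) = x1 at *
    generalize ((i + 1).factorial : ℚ) = x3 at *
    push_cast
    field_simp
    ring

theorem sum_F (n : ℕ) : ∑ k ∈ range n, (35 * (k : ℚ) + 8) *
      (((4 * k).factorial : ℚ) / (k.factorial : ℚ) ^ 4) * 81 ^ (n - 1 - k)
      = ∑ k ∈ range n, G n k := by
  rw [wz_sum F G 81 (fun n k hk => pair n k hk) corner n]
  refine sum_congr rfl fun j _ => ?_
  rw [F_zero]; ring

theorem term_eq (n r k Y : ℕ) (hr : n = 2 * k + 1 + r)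
    (hY : (r.factorial * (r + k).factorial * (r + 3 * k).factorial *
      (2 * r + 4 * k + 3).factorial) * Y
      = 6 * ((4 * r + 6 * k + 1).factorial * (r + 2 * k + 1).factorial)) :
    ∃ X : ℤ, 3 * (1 / (4 * (n : ℚ) * (2 * n + 1) * ((2 * n).choose n : ℚ)) * G n k)
      = (-9) ^ k * (9 * X + Y) := by
  have eY : ((r.factorial : ℚ) * ((r + k).factorial : ℚ) * ((r + 3 * k).factorial : ℚ) *
      ((2 * r + 4 * k + 3).factorial : ℚ)) * (Y : ℚ)
      = 6 * (((4 * r + 6 * k + 1).factorial : ℚ) * ((r + 2 * k + 1).factorial : ℚ)) := by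
    exact_mod_cast hY
  have hnn : (n : ℚ) ≠ 0 := by exact_mod_cast (by omega : n ≠ 0)
  have b1 : 2 * (n : ℚ) + 1 ≠ 0 := by positivity
  have hred : 3 * (1 / (4 * (n : ℚ) * (2 * n + 1) * ((2 * n).choose n : ℚ)) * G n k)
      = (-9) ^ k * (3 * (6 * k + 5 * r + 2)) * (((4 * r + 6 * k + 1).factorial : ℚ) *
        ((r + 2 * k + 1).factorial : ℚ)) /
      ((r.factorial : ℚ) * ((r + k).factorial : ℚ) * ((r + 3 * k + 1).factorial : ℚ) *
      ((2 * r + 4 * k + 3).factorial : ℚ)) := by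
    rw [G_r n r k hr, choose_two, show 2 * r + 4 * k + 3 = 2 * n + 1 by omega, f1 (2 * n),
      show 6 * k + 4 * r + 1 = 4 * r + 6 * k + 1 by ring,
      show 3 * k + r + 1 = r + 3 * k + 1 by ring, show k + r = r + k by ring,
      show r + 2 * k + 1 = n by omega]
    have a1 := fne (2 * n)
    have a2 := fne n
    have a4 := fne (r + k)
    have a5 := fne r
    have a6 := fne (r + 3 * k + 1)
    push_cast
    field_simp
  rw [hred]
  clear hred hY
  rw [f1 (r + 3 * k)]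
  have c1 := fne (4 * r + 6 * k + 1)
  have c2 := fne (r + 2 * k + 1)
  have c3 := fne (r + k)
  have c4 := fne (r + 3 * k)
  have c5 := fne (2 * r + 4 * k + 3)
  match r with
  | 0 =>
    refine ⟨0, ?_⟩
    simp only [zero_add, mul_zero, Nat.cast_zero, add_zero] at *
    generalize ((6 * k + 1).factorial : ℚ) = x1 at *
    generalize ((2 * k + 1).factorial : ℚ) = x2 at *
    generalize (k.factorial : ℚ) = x3 at *
    generalize ((3 * k).factorial : ℚ) = x4 at *
    generalize ((4 * k + 3).factorial : ℚ) = x5 at *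
    simp only [Nat.factorial_zero, Nat.cast_one] at *
    push_cast at *
    have d1 : 3 * (k : ℚ) + 1 ≠ 0 := by positivity
    have hY1 : (Y : ℚ) = 6 * (x1 * x2) / (1 * x3 * x4 * x5) := by
      rw [eq_div_iff (by positivity)]; linear_combination eY
    rw [hY1]
    field_simp
    ring
  | s + 1 =>
    obtain ⟨X, hX⟩ := exists_X s k
    have eX : ((s.factorial : ℚ) * ((s + k + 1).factorial : ℚ) * ((s + 3 * k + 2).factorial : ℚ) *
      ((2 * s + 4 * k + 5).factorial : ℚ)) * (X : ℚ)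
      = ((4 * s + 6 * k + 5).factorial : ℚ) * ((s + 2 * k + 2).factorial : ℚ) := by
      exact_mod_cast hX
    refine ⟨X, ?_⟩
    rw [show 4 * (s + 1) + 6 * k + 1 = 4 * s + 6 * k + 5 by ring,
      show s + 1 + 2 * k + 1 = s + 2 * k + 2 by ring, show s + 1 + k = s + k + 1 by ring,
      show s + 1 + 3 * k = s + 3 * k + 1 by ring,
      show 2 * (s + 1) + 4 * k + 3 = 2 * s + 4 * k + 5 by ring] at *
    rw [f1 (s + 3 * k + 1)] at eX
    rw [f1 s] at *
    have c8 := fne s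
    generalize ((4 * s + 6 * k + 5).factorial : ℚ) = x1 at *
    generalize ((s + 2 * k + 2).factorial : ℚ) = x2 at *
    generalize ((s + k + 1).factorial : ℚ) = x3 at *
    generalize ((s + 3 * k + 1).factorial : ℚ) = x4 at *
    generalize ((2 * s + 4 * k + 5).factorial : ℚ) = x5 at *
    generalize (s.factorial : ℚ) = x7 at *
    push_cast at *
    have e1 : (s : ℚ) + 3 * k + 1 + 1 ≠ 0 := by positivity
    have e2 : (s : ℚ) + 1 ≠ 0 := by positivity
    have hX1 : (X : ℚ) = x1 * x2 / (x7 * x3 * ((s + 3 * k + 1 + 1) * x4) * x5) := by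
      rw [eq_div_iff (by positivity)]; linear_combination eX
    have hY1 : (Y : ℚ) = 6 * (x1 * x2) / ((s + 1) * x7 * x3 * x4 * x5) := by
      rw [eq_div_iff (by positivity)]; linear_combination eY
    rw [hX1, hY1]
    field_simp
    ring

theorem result (n : ℕ) (hn : 1 ≤ n) :
    ((∀ m : ℕ, 1 ≤ m → 2 * n + 1 ≠ 3 ^ m) → ∃ z : ℤ, a n = z) ∧
    ((∃ m : ℕ, 1 ≤ m ∧ 2 * n + 1 = 3 ^ m) → ∃ z : ℤ, 3 * a n = z ∧ ¬ (3 : ℤ) ∣ z) := by
  obtain ⟨m, rfl⟩ : ∃ m, n = m + 1 := ⟨n - 1, by omega⟩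
  obtain ⟨Y0, hY0⟩ := exists_Y m 0
  obtain ⟨X0, hX0⟩ := term_eq (m + 1) m 0 Y0 (by ring) hY0
  simp only [mul_zero, add_zero] at hY0
  have h1 : ∀ k, ∃ z : ℤ, 3 * (1 / (4 * ((m + 1 : ℕ) : ℚ) * (2 * ((m + 1 : ℕ) : ℚ) + 1) *
      ((2 * (m + 1)).choose (m + 1) : ℚ)) * G (m + 1) (k + 1)) = 3 * z := by
    intro k
    rcases Nat.lt_or_ge (m + 1) (2 * (k + 1) + 1) with h | h
    · refine ⟨0, ?_⟩
      unfold G
      rw [if_neg (by omega)]
      simp
    · obtain ⟨Y, hY⟩ := exists_Y (m + 1 - 2 * (k + 1) - 1) (k + 1)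
      obtain ⟨X, hX⟩ := term_eq (m + 1) (m + 1 - 2 * (k + 1) - 1) (k + 1) Y (by omega) hY
      refine ⟨(-9) ^ k * (-3) * (9 * X + Y), ?_⟩
      rw [hX, pow_succ]
      push_cast
      ring
  choose c hc using h1
  have h3 : 3 * a (m + 1) = 3 * ((∑ k ∈ range m, c k : ℤ) : ℚ) + (9 * (X0 : ℚ) + (Y0 : ℚ)) := by
    unfold a
    rw [sum_F, mul_sum, mul_sum, sum_range_succ', hX0, Int.cast_sum, mul_sum, pow_zero, one_mul]
    congr 1
    exact sum_congr rfl fun k _ => hc k
  generalize (∑ k ∈ range m, c k : ℤ) = w at *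
  have hY1 : (m.factorial * m.factorial * m.factorial * (2 * m + 3).factorial) * Y0
      = 6 * ((4 * m + 1).factorial * (m + 1).factorial) := hY0
  constructor
  · intro hm
    obtain ⟨d, hd⟩ := three_dvd m Y0 (fun j hj => by
      rcases Nat.eq_zero_or_pos j with rfl | hj0
      · simp at hj
      · exact hm j hj0 (by omega)) hY1
    refine ⟨w + 3 * X0 + d, ?_⟩
    rw [hd] at h3
    push_cast at h3 ⊢
    linarith
  · rintro ⟨j, hj0, hj⟩
    have h4 := not_three_dvd m Y0 j (by omega) hY1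
    refine ⟨3 * w + 9 * X0 + Y0, by rw [h3]; push_cast; ring, fun h => h4 ?_⟩
    have h5 : (3 : ℤ) ∣ (Y0 : ℤ) := by omega
    exact_mod_cast h5

end Pool.Agent.Results.MP_1a5975_nt.Integrality
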